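import Pool.Agent.Q289.MeanSplit.General

/-!
# Mean-split quantization: a self-similar measure
-/

set_option autoImplicit false

open MeasureTheory Set ProbabilityTheory
open scoped ENNReal

namespace Q289.MeanSplit

/-- the uniform distribution on `[1 - δ, 1 + δ]` -/
noncomputable def U (δ : ℝ) : Measure ℝ := cond volume (Icc (1 - δ) (1 + δ))

/-- the self-similar measure -/
noncomputable def mu (σ p δ : ℝ) : Measure ℝ :=
  Measure.sum (fun k : ℕ => ENNReal.ofReal ((1 - p) * p ^ k) • sc (σ ^ k) (U δ))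

theorem vol_ne (δ : ℝ) (hδ : 0 < δ) : volume (Icc (1 - δ) (1 + δ)) ≠ 0 := by
  rw [Real.volume_Icc]
  simp only [ne_eq, ENNReal.ofReal_eq_zero, not_le]
  linarith

theorem U_prob (δ : ℝ) (hδ : 0 < δ) : IsProbabilityMeasure (U δ) :=
  cond_isProbabilityMeasure_of_finite (vol_ne δ hδ) (by rw [Real.volume_Icc]; exact ENNReal.ofReal_ne_top)

theorem U_ae (δ : ℝ) : ∀ᵐ x ∂(U δ), x ∈ Icc (1 - δ) (1 + δ) := by
  unfold U ProbabilityTheory.cond
  exact Measure.ae_smul_measure (ae_restrict_mem measurableSet_Icc) _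

theorem U_mean (δ : ℝ) (hδ : 0 < δ) : ∫ x, x ∂(U δ) = 1 := by
  unfold U ProbabilityTheory.cond
  rw [integral_smul_measure, integral_Icc_eq_integral_Ioc,
    ← intervalIntegral.integral_of_le (by linarith), integral_id, Real.volume_Icc,
    ENNReal.toReal_inv, ENNReal.toReal_ofReal (by linarith), smul_eq_mul,
    show 1 + δ - (1 - δ) = 2 * δ by ring, show ((1 + δ) ^ 2 - (1 - δ) ^ 2) / 2 = 2 * δ by ring,
    inv_mul_cancel₀ (by positivity)]

theorem sc_sc (a b : ℝ) (μ : Measure ℝ) : sc a (sc b μ) = sc (a * b) μ := by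
  unfold sc
  rw [Measure.map_map (meas_sc a) (meas_sc b)]
  congr 1
  ext x
  simp [mul_assoc]

theorem mu_self (σ p δ : ℝ) (hp0 : 0 < p) :
    mu σ p δ = ENNReal.ofReal (1 - p) • U δ + ENNReal.ofReal p • sc σ (mu σ p δ) := by
  have h1 : sc σ (mu σ p δ) =
      Measure.sum (fun k : ℕ => ENNReal.ofReal ((1 - p) * p ^ k) • sc (σ ^ (k + 1)) (U δ)) := by
    unfold mu
    conv_lhs => unfold sc
    rw [Measure.map_sum (meas_sc σ).aemeasurable]
    congr 1
    funext k
    change sc σ (ENNReal.ofReal ((1 - p) * p ^ k) • sc (σ ^ k) (U δ)) = _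
    rw [sc_smul, sc_sc, pow_succ, mul_comm σ]
  rw [h1]
  ext s hs
  unfold mu
  rw [Measure.sum_apply _ hs, tsum_eq_zero_add' ENNReal.summable, Measure.add_apply,
    Measure.smul_apply, Measure.smul_apply, Measure.smul_apply, Measure.sum_apply _ hs,
    smul_eq_mul, smul_eq_mul, smul_eq_mul, ← ENNReal.tsum_mul_left]
  congr 1
  · have : sc (σ ^ 0) (U δ) = U δ := by
      unfold sc
      simp
    rw [this, pow_zero, mul_one]
  · refine tsum_congr fun k => ?_
    rw [Measure.smul_apply, Measure.smul_apply, smul_eq_mul, smul_eq_mul, ← mul_assoc,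
      ← ENNReal.ofReal_mul hp0.le]
    congr 2
    ring

theorem mu_prob (σ p δ : ℝ) (hp0 : 0 < p) (hp1 : p < 1) (hδ : 0 < δ) :
    IsProbabilityMeasure (mu σ p δ) := by
  have := U_prob δ hδ
  refine ⟨?_⟩
  unfold mu
  rw [Measure.sum_apply _ MeasurableSet.univ]
  have h1 : ∀ k : ℕ, (ENNReal.ofReal ((1 - p) * p ^ k) • sc (σ ^ k) (U δ)) univ =
      ENNReal.ofReal ((1 - p) * p ^ k) := by
    intro k
    rw [Measure.smul_apply, sc_apply _ _ MeasurableSet.univ, preimage_univ, measure_univ,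
      smul_eq_mul, mul_one]
  rw [tsum_congr h1, ← ENNReal.ofReal_tsum_of_nonneg, tsum_mul_left,
    tsum_geometric_of_lt_one hp0.le hp1, mul_inv_cancel₀ (by linarith), ENNReal.ofReal_one]
  · intro k
    have : 0 < 1 - p := by linarith
    positivity
  · exact (summable_geometric_of_lt_one hp0.le hp1).mul_left _

theorem mu_ac (σ p δ : ℝ) (hσ : 0 < σ) : mu σ p δ ≪ volume := by
  unfold mu
  refine Measure.absolutelyContinuous_sum_left fun k => ?_
  refine Measure.AbsolutelyContinuous.smul_left ?_ _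
  have h1 : U δ ≪ volume := by
    unfold U
    exact cond_absolutelyContinuous
  have h2 := h1.map (meas_sc (σ ^ k))
  refine h2.trans ?_
  rw [Real.map_volume_mul_left (pow_ne_zero k hσ.ne')]
  exact Measure.smul_absolutelyContinuous

theorem mu_moment (σ p δ : ℝ) (hσ : 0 < σ) (hp0 : 0 < p) (hp1 : p < 1) (hδ : 0 < δ) (hδ1 : δ < 1)
    (q : ℕ) (hq : p * σ ^ q < 1) : Integrable (fun x => |x| ^ q) (mu σ p δ) := by
  have := U_prob δ hδ
  refine ⟨(by fun_prop), ?_⟩
  unfold HasFiniteIntegral mu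
  rw [lintegral_sum_measure]
  have h1 : ∀ k : ℕ, ∫⁻ x, ‖|x| ^ q‖ₑ ∂(ENNReal.ofReal ((1 - p) * p ^ k) • sc (σ ^ k) (U δ)) ≤
      ENNReal.ofReal ((1 - p) * 2 ^ q * (p * σ ^ q) ^ k) := by
    intro k
    rw [lintegral_smul_measure]
    unfold sc
    rw [lintegral_map (by fun_prop) (meas_sc _)]
    have h2 : ∫⁻ x, ‖|σ ^ k * x| ^ q‖ₑ ∂(U δ) ≤ ∫⁻ _x, ENNReal.ofReal ((σ ^ k) ^ q * 2 ^ q) ∂(U δ) := by
      refine lintegral_mono_ae ?_
      filter_upwards [U_ae δ] with x hx
      rw [← ofReal_norm]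
      refine ENNReal.ofReal_le_ofReal ?_
      rw [norm_pow, Real.norm_eq_abs, abs_abs, abs_mul, abs_of_pos (pow_pos hσ k), mul_pow]
      have hx2 : |x| ≤ 2 := by
        rw [abs_le]; constructor <;> linarith [hx.1, hx.2]
      gcongr
    have h3 : ENNReal.ofReal ((1 - p) * p ^ k) * ∫⁻ x, ‖|σ ^ k * x| ^ q‖ₑ ∂(U δ) ≤
        ENNReal.ofReal ((1 - p) * p ^ k) * ENNReal.ofReal ((σ ^ k) ^ q * 2 ^ q) := by
      refine mul_le_mul_right (h2.trans_eq ?_) _
      rw [lintegral_const, measure_univ, mul_one]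
    refine h3.trans_eq ?_
    have h1p : 0 < 1 - p := by linarith
    rw [← ENNReal.ofReal_mul (by positivity)]
    congr 1
    rw [mul_pow, ← pow_mul, ← pow_mul, mul_comm q k]
    ring
  refine lt_of_le_of_lt (ENNReal.tsum_le_tsum h1) ?_
  have h1p : 0 < 1 - p := by linarith
  rw [← ENNReal.ofReal_tsum_of_nonneg]
  · exact ENNReal.ofReal_lt_top
  · intro k; positivity
  · exact (summable_geometric_of_lt_one (by positivity) hq).mul_left _

end Q289.MeanSplit
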