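import Mathlib

/-!
# Mean-split quantization: definitions
-/

set_option autoImplicit false

open MeasureTheory Set
open scoped ENNReal

namespace Q289.MeanSplit

/-- the mean -/
noncomputable def mean (μ : Measure ℝ) : ℝ := ∫ x, x ∂μ

/-- the measure `T(μ, n)` of the mean-split algorithm; `ProbabilityTheory.cond μ A` is `μ`
conditioned on `A` -/
noncomputable def T : ℕ → Measure ℝ → Measure ℝ
  | 0, μ => Measure.dirac (mean μ)
  | n + 1, μ => μ (Iio (mean μ)) • T n (ProbabilityTheory.cond μ (Iio (mean μ))) +
      μ (Ici (mean μ)) • T n (ProbabilityTheory.cond μ (Ici (mean μ)))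

/-- the Wasserstein distance of order one, as the integral of the absolute difference of the
distribution functions -/
noncomputable def W1 (μ ν : Measure ℝ) : ℝ≥0∞ :=
  ∫⁻ t, ENNReal.ofReal |(μ (Iic t)).toReal - (ν (Iic t)).toReal|

end Q289.MeanSplit
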