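import Pool.Agent.Q289.MeanSplit.Defs

/-!
# Mean-split quantization: general facts
-/

set_option autoImplicit false

open MeasureTheory Set ProbabilityTheory
open scoped ENNReal

namespace Q289.MeanSplit

/-- scaling -/
noncomputable def sc (σ : ℝ) (μ : Measure ℝ) : Measure ℝ := μ.map (fun x => σ * x)

theorem meas_sc (σ : ℝ) : Measurable (fun x : ℝ => σ * x) := measurable_const_mul σ

theorem sc_apply (σ : ℝ) (μ : Measure ℝ) {A : Set ℝ} (hA : MeasurableSet A) :
    sc σ μ A = μ ((fun x => σ * x) ⁻¹' A) := Measure.map_apply (meas_sc σ) hA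

theorem pre_Iio (σ : ℝ) (hσ : 0 < σ) (t : ℝ) : (fun x => σ * x) ⁻¹' (Iio (σ * t)) = Iio t := by
  ext x
  exact ⟨fun h => lt_of_mul_lt_mul_left h hσ.le, fun h => mul_lt_mul_of_pos_left h hσ⟩

theorem pre_Ici (σ : ℝ) (hσ : 0 < σ) (t : ℝ) : (fun x => σ * x) ⁻¹' (Ici (σ * t)) = Ici t := by
  ext x
  exact ⟨fun h => le_of_mul_le_mul_left h hσ, fun h => mul_le_mul_of_nonneg_left h hσ.le⟩

theorem pre_Iic (σ : ℝ) (hσ : 0 < σ) (t : ℝ) : (fun x => σ * x) ⁻¹' (Iic (σ * t)) = Iic t := by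
  ext x
  exact ⟨fun h => le_of_mul_le_mul_left h hσ, fun h => mul_le_mul_of_nonneg_left h hσ.le⟩

theorem sc_Iio (σ : ℝ) (hσ : 0 < σ) (μ : Measure ℝ) (t : ℝ) : sc σ μ (Iio (σ * t)) = μ (Iio t) := by
  rw [sc_apply σ μ measurableSet_Iio, pre_Iio σ hσ]

theorem sc_Ici (σ : ℝ) (hσ : 0 < σ) (μ : Measure ℝ) (t : ℝ) : sc σ μ (Ici (σ * t)) = μ (Ici t) := by
  rw [sc_apply σ μ measurableSet_Ici, pre_Ici σ hσ]

theorem sc_Iic (σ : ℝ) (hσ : 0 < σ) (μ : Measure ℝ) (t : ℝ) : sc σ μ (Iic (σ * t)) = μ (Iic t) := by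
  rw [sc_apply σ μ measurableSet_Iic, pre_Iic σ hσ]

theorem mean_sc (σ : ℝ) (μ : Measure ℝ) : mean (sc σ μ) = σ * mean μ := by
  unfold mean sc
  rw [integral_map (meas_sc σ).aemeasurable (by fun_prop), integral_const_mul]

theorem sc_restrict_Iio (σ : ℝ) (hσ : 0 < σ) (μ : Measure ℝ) (t : ℝ) :
    (sc σ μ).restrict (Iio (σ * t)) = sc σ (μ.restrict (Iio t)) := by
  unfold sc
  rw [Measure.restrict_map (meas_sc σ) measurableSet_Iio, pre_Iio σ hσ]

theorem sc_restrict_Ici (σ : ℝ) (hσ : 0 < σ) (μ : Measure ℝ) (t : ℝ) :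
    (sc σ μ).restrict (Ici (σ * t)) = sc σ (μ.restrict (Ici t)) := by
  unfold sc
  rw [Measure.restrict_map (meas_sc σ) measurableSet_Ici, pre_Ici σ hσ]

theorem sc_smul (σ : ℝ) (c : ℝ≥0∞) (μ : Measure ℝ) : sc σ (c • μ) = c • sc σ μ := by
  unfold sc
  rw [Measure.map_smul]

theorem sc_add (σ : ℝ) (μ ν : Measure ℝ) : sc σ (μ + ν) = sc σ μ + sc σ ν := by
  unfold sc
  rw [Measure.map_add _ _ (meas_sc σ)]

theorem cond_sc_Iio (σ : ℝ) (hσ : 0 < σ) (μ : Measure ℝ) (t : ℝ) :
    cond (sc σ μ) (Iio (σ * t)) = sc σ (cond μ (Iio t)) := by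
  unfold ProbabilityTheory.cond
  rw [sc_Iio σ hσ, sc_restrict_Iio σ hσ, sc_smul]

theorem cond_sc_Ici (σ : ℝ) (hσ : 0 < σ) (μ : Measure ℝ) (t : ℝ) :
    cond (sc σ μ) (Ici (σ * t)) = sc σ (cond μ (Ici t)) := by
  unfold ProbabilityTheory.cond
  rw [sc_Ici σ hσ, sc_restrict_Ici σ hσ, sc_smul]

theorem T_sc (σ : ℝ) (hσ : 0 < σ) (n : ℕ) : ∀ μ : Measure ℝ, T n (sc σ μ) = sc σ (T n μ) := by
  induction n with
  | zero =>
    intro μ
    simp only [T]
    rw [mean_sc]
    unfold sc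
    rw [Measure.map_dirac' (meas_sc σ)]
  | succ n ih =>
    intro μ
    simp only [T]
    rw [mean_sc, sc_Iio σ hσ, sc_Ici σ hσ, cond_sc_Iio σ hσ, cond_sc_Ici σ hσ, ih, ih, sc_add,
      sc_smul, sc_smul]

/-- total mass -/
theorem T_prob (n : ℕ) : ∀ μ : Measure ℝ, IsProbabilityMeasure μ → IsProbabilityMeasure (T n μ) := by
  induction n with
  | zero => intro μ _; simp only [T]; infer_instance
  | succ n ih =>
    intro μ hμ
    refine ⟨?_⟩
    have hu : μ (Iio (mean μ)) + μ (Ici (mean μ)) = 1 := by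
      rw [← prob_add_prob_compl (μ := μ) (s := Iio (mean μ)) measurableSet_Iio, compl_Iio]
    have h : ∀ A : Set ℝ, μ A * (T n (cond μ A)) univ = μ A := by
      intro A
      by_cases hA : μ A = 0
      · rw [hA, zero_mul]
      · have := cond_isProbabilityMeasure (μ := μ) hA
        have := ih _ this
        rw [measure_univ, mul_one]
    simp only [T]
    rw [Measure.add_apply, Measure.smul_apply, Measure.smul_apply, smul_eq_mul, smul_eq_mul, h, h,
      hu]

theorem cond_le {μ : Measure ℝ} {A B : Set ℝ} (h : μ B = 0) : cond μ A B = 0 := by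
  unfold ProbabilityTheory.cond
  rw [Measure.smul_apply, smul_eq_mul]
  have : μ.restrict A B = 0 := le_antisymm ((Measure.restrict_apply_le _ _).trans_eq h) zero_le
  rw [this, mul_zero]

theorem cond_integrable {μ : Measure ℝ} [IsFiniteMeasure μ] {A : Set ℝ} (hA : μ A ≠ 0)
    (h : Integrable (fun x => x) μ) : Integrable (fun x => x) (cond μ A) := by
  unfold ProbabilityTheory.cond
  exact (h.restrict).smul_measure (ENNReal.inv_ne_top.2 hA)

/-- lower bound for the mean -/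
theorem le_mean {μ : Measure ℝ} [IsProbabilityMeasure μ] (h : Integrable (fun x => x) μ) {a : ℝ}
    (ha : μ (Iio a) = 0) : a ≤ mean μ := by
  unfold mean
  have h1 : ∫ _x, a ∂μ ≤ ∫ x, x ∂μ := by
    refine integral_mono_ae (integrable_const a) h ?_
    have : ∀ᵐ x ∂μ, x ∉ Iio a := measure_eq_zero_iff_ae_notMem.1 ha
    filter_upwards [this] with x hx
    simpa using hx
  simpa using h1

theorem mean_le {μ : Measure ℝ} [IsProbabilityMeasure μ] (h : Integrable (fun x => x) μ) {b : ℝ}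
    (hb : μ (Ioi b) = 0) : mean μ ≤ b := by
  unfold mean
  have h1 : ∫ x, x ∂μ ≤ ∫ _x, b ∂μ := by
    refine integral_mono_ae h (integrable_const b) ?_
    have : ∀ᵐ x ∂μ, x ∉ Ioi b := measure_eq_zero_iff_ae_notMem.1 hb
    filter_upwards [this] with x hx
    simpa using hx
  simpa using h1

theorem T_Iio (n : ℕ) (a : ℝ) : ∀ μ : Measure ℝ, IsProbabilityMeasure μ →
    Integrable (fun x => x) μ → μ (Iio a) = 0 → T n μ (Iio a) = 0 := by
  induction n with
  | zero =>
    intro μ hμ hi ha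
    simp only [T]
    rw [Measure.dirac_apply' _ measurableSet_Iio, Set.indicator_of_notMem]
    simpa using le_mean hi ha
  | succ n ih =>
    intro μ hμ hi ha
    have h : ∀ A : Set ℝ, μ A * (T n (cond μ A)) (Iio a) = 0 := by
      intro A
      by_cases hA : μ A = 0
      · rw [hA, zero_mul]
      · rw [ih _ (cond_isProbabilityMeasure hA) (cond_integrable hA hi) (cond_le ha), mul_zero]
    simp only [T]
    rw [Measure.add_apply, Measure.smul_apply, Measure.smul_apply, smul_eq_mul, smul_eq_mul, h, h,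
      add_zero]

theorem T_Ioi (n : ℕ) (b : ℝ) : ∀ μ : Measure ℝ, IsProbabilityMeasure μ →
    Integrable (fun x => x) μ → μ (Ioi b) = 0 → T n μ (Ioi b) = 0 := by
  induction n with
  | zero =>
    intro μ hμ hi ha
    simp only [T]
    rw [Measure.dirac_apply' _ measurableSet_Ioi, Set.indicator_of_notMem]
    simpa using mean_le hi ha
  | succ n ih =>
    intro μ hμ hi ha
    have h : ∀ A : Set ℝ, μ A * (T n (cond μ A)) (Ioi b) = 0 := by
      intro A
      by_cases hA : μ A = 0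
      · rw [hA, zero_mul]
      · rw [ih _ (cond_isProbabilityMeasure hA) (cond_integrable hA hi) (cond_le ha), mul_zero]
    simp only [T]
    rw [Measure.add_apply, Measure.smul_apply, Measure.smul_apply, smul_eq_mul, smul_eq_mul, h, h,
      add_zero]

end Q289.MeanSplit
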