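import Pool.Agent.Q289.MeanSplit.Bumps

/-!
# Mean-split quantization: the rate for the self-similar measure
-/

set_option autoImplicit false

open MeasureTheory Set ProbabilityTheory Filter
open scoped ENNReal Topology

namespace Q289.MeanSplit

theorem sc_Iic' (σ : ℝ) (hσ : 0 < σ) (ν : Measure ℝ) (t : ℝ) :
    sc σ ν (Iic t) = ν (Iic (σ⁻¹ * t)) := by
  have := sc_Iic σ hσ ν (σ⁻¹ * t)
  rwa [mul_inv_cancel_left₀ hσ.ne'] at this

/-- the parameters -/
structure Par (σ p δ : ℝ) : Prop where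
  hσ : 1 < σ
  hp0 : 0 < p
  hp1 : p < 1
  hδ : 0 < δ
  hδ1 : δ < 1
  hpσ : p * σ < 1
  h1 : 1 + δ < (1 - p) / (1 - p * σ)
  h2 : (1 - p) / (1 - p * σ) < σ * (1 - δ)

variable {σ p δ : ℝ}

theorem mu_int (h : Par σ p δ) : Integrable (fun x => x) (mu σ p δ) := by
  have h1 := mu_moment σ p δ (by linarith [h.hσ]) h.hp0 h.hp1 h.hδ h.hδ1 1 (by simpa using h.hpσ)
  simp only [pow_one] at h1
  exact (integrable_norm_iff (by fun_prop)).1 h1

theorem U_int (h : Par σ p δ) : Integrable (fun x => x) (U δ) := by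
  have := U_prob δ h.hδ
  refine ⟨by fun_prop, HasFiniteIntegral.of_bounded (C := 2) ?_⟩
  filter_upwards [U_ae δ] with x hx
  rw [Real.norm_eq_abs, abs_le]
  constructor <;> linarith [hx.1, hx.2, h.hδ1]

theorem mu_mean (h : Par σ p δ) : mean (mu σ p δ) = (1 - p) / (1 - p * σ) := by
  have hσ : 0 < σ := by linarith [h.hσ]
  have h1p : 0 < 1 - p := by linarith [h.hp1]
  have h0 : 0 < 1 - p * σ := by linarith [h.hpσ]
  have e : mean (mu σ p δ) = (1 - p) + p * (σ * mean (mu σ p δ)) := by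
    have hs : Integrable (fun x => x) (sc σ (mu σ p δ)) := by
      unfold sc
      rw [integrable_map_measure (by fun_prop) (by fun_prop)]
      exact (mu_int h).const_mul σ
    conv_lhs => rw [mu_self σ p δ h.hp0]
    unfold mean
    rw [integral_add_measure ((U_int h).smul_measure ENNReal.ofReal_ne_top)
      (hs.smul_measure ENNReal.ofReal_ne_top), integral_smul_measure, integral_smul_measure,
      U_mean δ h.hδ, ENNReal.toReal_ofReal h1p.le, ENNReal.toReal_ofReal h.hp0.le]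
    have := mean_sc σ (mu σ p δ)
    unfold mean at this
    rw [this, smul_eq_mul, smul_eq_mul, mul_one]
  rw [eq_div_iff h0.ne']
  linarith

theorem U_Ioi (_h : Par σ p δ) {t : ℝ} (ht : 1 + δ ≤ t) : U δ (Ioi t) = 0 := by
  have := U_ae δ
  rw [measure_eq_zero_iff_ae_notMem]
  filter_upwards [this] with x hx
  simp only [mem_Ioi, not_lt]
  exact hx.2.trans ht

theorem U_Iio (_h : Par σ p δ) {t : ℝ} (ht : t ≤ 1 - δ) : U δ (Iio t) = 0 := by
  have := U_ae δ
  rw [measure_eq_zero_iff_ae_notMem]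
  filter_upwards [this] with x hx
  simp only [mem_Iio, not_lt]
  exact ht.trans hx.1

/-- the measure lives on `[1 - δ, ∞)` -/
theorem mu_Iio (h : Par σ p δ) : mu σ p δ (Iio (1 - δ)) = 0 := by
  unfold mu
  rw [Measure.sum_apply _ measurableSet_Iio, ENNReal.tsum_eq_zero]
  intro k
  have hσ : 0 < σ := by linarith [h.hσ]
  have hk : 1 ≤ σ ^ k := one_le_pow₀ h.hσ.le
  rw [Measure.smul_apply, sc_apply _ _ measurableSet_Iio, smul_eq_mul]
  have : U δ ((fun x => σ ^ k * x) ⁻¹' Iio (1 - δ)) = 0 := by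
    refine measure_mono_null ?_ (U_Iio h le_rfl)
    intro x hx
    simp only [mem_preimage, mem_Iio] at hx ⊢
    by_contra hc
    push Not at hc
    have : 0 < 1 - δ := by linarith [h.hδ1]
    nlinarith
  rw [this, mul_zero]

theorem sc_Iio_zero (h : Par σ p δ) {ν : Measure ℝ} (hν : ν (Iio (1 - δ)) = 0) {t : ℝ}
    (ht : t ≤ σ * (1 - δ)) : sc σ ν (Iio t) = 0 := by
  have hσ : 0 < σ := by linarith [h.hσ]
  refine measure_mono_null (Iio_subset_Iio ht) ?_
  rw [sc_Iio σ hσ, hν]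

/-- the first split -/
theorem mu_split (h : Par σ p δ) (n : ℕ) : T (n + 1) (mu σ p δ) =
    ENNReal.ofReal (1 - p) • T n (U δ) + ENNReal.ofReal p • sc σ (T n (mu σ p δ)) := by
  have hσ : 0 < σ := by linarith [h.hσ]
  have h1p : 0 < 1 - p := by linarith [h.hp1]
  have hU := U_prob δ h.hδ
  have hmu := mu_prob σ p δ h.hp0 h.hp1 h.hδ
  set m := mean (mu σ p δ) with hm
  have hm1 : 1 + δ < m := by rw [hm, mu_mean h]; exact h.h1
  have hm2 : m < σ * (1 - δ) := by rw [hm, mu_mean h]; exact h.h2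
  have hUI : U δ (Iio m) = 1 := by
    rw [← compl_Ici, prob_compl_eq_one_iff measurableSet_Ici]
    exact measure_mono_null (Ici_subset_Ioi.2 hm1) (U_Ioi h le_rfl)
  have hUc : U δ (Ici m) = 0 := measure_mono_null (Ici_subset_Ioi.2 hm1) (U_Ioi h le_rfl)
  have hsprob : IsProbabilityMeasure (sc σ (mu σ p δ)) :=
    Measure.isProbabilityMeasure_map (meas_sc σ).aemeasurable
  have hsI : sc σ (mu σ p δ) (Iio m) = 0 := sc_Iio_zero h (mu_Iio h) hm2.le
  have hsc : sc σ (mu σ p δ) (Ici m) = 1 := by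
    rw [← compl_Iio, prob_compl_eq_one_iff measurableSet_Iio]
    exact hsI
  have e1 : mu σ p δ (Iio m) = ENNReal.ofReal (1 - p) := by
    conv_lhs => rw [mu_self σ p δ h.hp0]
    rw [Measure.add_apply, Measure.smul_apply, Measure.smul_apply, hUI, hsI]
    simp
  have e2 : mu σ p δ (Ici m) = ENNReal.ofReal p := by
    conv_lhs => rw [mu_self σ p δ h.hp0]
    rw [Measure.add_apply, Measure.smul_apply, Measure.smul_apply, hUc, hsc]
    simp
  have rU1 : (U δ).restrict (Iio m) = U δ := by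
    refine Measure.restrict_eq_self_of_ae_mem ?_
    filter_upwards [U_ae δ] with x hx
    exact lt_of_le_of_lt hx.2 hm1
  have rU2 : (U δ).restrict (Ici m) = 0 := Measure.restrict_eq_zero.2 hUc
  have rs1 : (sc σ (mu σ p δ)).restrict (Iio m) = 0 := Measure.restrict_eq_zero.2 hsI
  have rs2 : (sc σ (mu σ p δ)).restrict (Ici m) = sc σ (mu σ p δ) := by
    refine Measure.restrict_eq_self_of_ae_mem ?_
    have := measure_eq_zero_iff_ae_notMem.1 hsI
    filter_upwards [this] with x hx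
    simpa using hx
  have c1 : cond (mu σ p δ) (Iio m) = U δ := by
    unfold ProbabilityTheory.cond
    rw [e1]
    conv_lhs => rw [mu_self σ p δ h.hp0]
    rw [Measure.restrict_add, Measure.restrict_smul, Measure.restrict_smul, rU1, rs1, smul_zero,
      add_zero, smul_smul, ENNReal.inv_mul_cancel (by simpa using h.hp1) ENNReal.ofReal_ne_top,
      one_smul]
  have c2 : cond (mu σ p δ) (Ici m) = sc σ (mu σ p δ) := by
    unfold ProbabilityTheory.cond
    rw [e2]
    conv_lhs => rw [mu_self σ p δ h.hp0]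
    rw [Measure.restrict_add, Measure.restrict_smul, Measure.restrict_smul, rU2, rs2, smul_zero,
      zero_add, smul_smul, ENNReal.inv_mul_cancel (by simpa using h.hp0) ENNReal.ofReal_ne_top,
      one_smul]
  simp only [T]
  rw [← hm, e1, e2, c1, c2, T_sc σ hσ]

theorem step (h : Par σ p δ) (n : ℕ) :
    ENNReal.ofReal (p * σ) * W1 (T n (mu σ p δ)) (mu σ p δ) ≤
      W1 (T (n + 1) (mu σ p δ)) (mu σ p δ) := by
  have hσ : 0 < σ := by linarith [h.hσ]
  have h1p : 0 < 1 - p := by linarith [h.hp1]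
  have hU := U_prob δ h.hδ
  have hmu := mu_prob σ p δ h.hp0 h.hp1 h.hδ
  have hTU := T_prob n _ hU
  have hTmu := T_prob n _ hmu
  have hUint := U_int h
  have hmint := mu_int h
  set G : ℝ → ℝ := fun t => ((T n (mu σ p δ)) (Iic t)).toReal with hG
  set H : ℝ → ℝ := fun t => ((mu σ p δ) (Iic t)).toReal with hH
  have hGm : Measurable G := by
    refine Monotone.measurable fun a b hab => ?_
    exact ENNReal.toReal_mono (measure_ne_top _ _) (measure_mono (Iic_subset_Iic.2 hab))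
  have hHm : Measurable H := by
    refine Monotone.measurable fun a b hab => ?_
    exact ENNReal.toReal_mono (measure_ne_top _ _) (measure_mono (Iic_subset_Iic.2 hab))
  have e1 : ∀ t, ((T (n + 1) (mu σ p δ)) (Iic t)).toReal =
      (1 - p) * ((T n (U δ)) (Iic t)).toReal + p * G (σ⁻¹ * t) := by
    intro t
    have hs : sc σ (T n (mu σ p δ)) (Iic t) = (T n (mu σ p δ)) (Iic (σ⁻¹ * t)) :=
      sc_Iic' σ hσ _ t
    rw [mu_split h, Measure.add_apply, Measure.smul_apply, Measure.smul_apply, smul_eq_mul,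
      smul_eq_mul, hs, ENNReal.toReal_add, ENNReal.toReal_mul, ENNReal.toReal_mul,
      ENNReal.toReal_ofReal h1p.le, ENNReal.toReal_ofReal h.hp0.le]
    · exact ENNReal.mul_ne_top ENNReal.ofReal_ne_top (measure_ne_top _ _)
    · exact ENNReal.mul_ne_top ENNReal.ofReal_ne_top (measure_ne_top _ _)
  have e2 : ∀ t, H t = (1 - p) * ((U δ) (Iic t)).toReal + p * H (σ⁻¹ * t) := by
    intro t
    have hs : sc σ (mu σ p δ) (Iic t) = (mu σ p δ) (Iic (σ⁻¹ * t)) := sc_Iic' σ hσ _ t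
    simp only [hH]
    conv_lhs => rw [mu_self σ p δ h.hp0]
    rw [Measure.add_apply, Measure.smul_apply, Measure.smul_apply, smul_eq_mul,
      smul_eq_mul, hs, ENNReal.toReal_add, ENNReal.toReal_mul, ENNReal.toReal_mul,
      ENNReal.toReal_ofReal h1p.le, ENNReal.toReal_ofReal h.hp0.le]
    · exact ENNReal.mul_ne_top ENNReal.ofReal_ne_top (measure_ne_top _ _)
    · exact ENNReal.mul_ne_top ENNReal.ofReal_ne_top (measure_ne_top _ _)
  have key : ∀ t, p * |G (σ⁻¹ * t) - H (σ⁻¹ * t)| ≤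
      |((T (n + 1) (mu σ p δ)) (Iic t)).toReal - H t| := by
    intro t
    rw [e1, e2 t]
    by_cases ht : 1 + δ ≤ t
    · have a1 : (T n (U δ)) (Iic t) = 1 := by
        rw [← compl_Ioi, prob_compl_eq_one_iff measurableSet_Ioi]
        exact T_Ioi n t _ hU hUint (U_Ioi h ht)
      have a2 : (U δ) (Iic t) = 1 := by
        rw [← compl_Ioi, prob_compl_eq_one_iff measurableSet_Ioi]
        exact U_Ioi h ht
      rw [a1, a2, add_sub_add_left_eq_sub, ← mul_sub, abs_mul, abs_of_pos h.hp0]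
    · push Not at ht
      have hlt : σ⁻¹ * t < 1 - δ := by
        rw [inv_mul_lt_iff₀ hσ]
        have h3 := h.h1
        have h4 := h.h2
        linarith
      have b1 : G (σ⁻¹ * t) = 0 := by
        simp only [hG]
        rw [measure_mono_null (Iic_subset_Iio.2 hlt) (T_Iio n _ _ hmu hmint (mu_Iio h)),
          ENNReal.toReal_zero]
      have b2 : H (σ⁻¹ * t) = 0 := by
        simp only [hH]
        rw [measure_mono_null (Iic_subset_Iio.2 hlt) (mu_Iio h), ENNReal.toReal_zero]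
      rw [b1, b2, sub_zero, abs_zero, mul_zero]
      exact abs_nonneg _
  unfold W1
  calc ENNReal.ofReal (p * σ) * ∫⁻ t, ENNReal.ofReal |G t - H t|
      = ∫⁻ t, ENNReal.ofReal (p * |G (σ⁻¹ * t) - H (σ⁻¹ * t)|) := by
        have hmeas : Measurable (fun t => ENNReal.ofReal |G t - H t|) := by fun_prop
        have h5 : ∫⁻ t, ENNReal.ofReal |G (σ⁻¹ * t) - H (σ⁻¹ * t)| =
            ENNReal.ofReal σ * ∫⁻ t, ENNReal.ofReal |G t - H t| := by
          rw [← lintegral_map (f := fun t => ENNReal.ofReal |G t - H t|) hmeas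
            (measurable_const_mul σ⁻¹), Real.map_volume_mul_left (inv_ne_zero hσ.ne'),
            lintegral_smul_measure, inv_inv, abs_of_pos hσ, smul_eq_mul]
        simp_rw [ENNReal.ofReal_mul h.hp0.le]
        rw [lintegral_const_mul _ (by fun_prop), h5, ← mul_assoc]
    _ ≤ _ := lintegral_mono fun t => ENNReal.ofReal_le_ofReal (key t)

theorem base (h : Par σ p δ) :
    ENNReal.ofReal ((1 - p) * ((1 - p) / (1 - p * σ) - (1 + δ))) ≤
      W1 (T 0 (mu σ p δ)) (mu σ p δ) := by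
  have hσ : 0 < σ := by linarith [h.hσ]
  have h1p : 0 < 1 - p := by linarith [h.hp1]
  have hU := U_prob δ h.hδ
  have hmu := mu_prob σ p δ h.hp0 h.hp1 h.hδ
  have hm := mu_mean h
  set m := (1 - p) / (1 - p * σ) with hmdef
  unfold W1
  simp only [T]
  rw [hm]
  have hge : ∀ t ∈ Ioo (1 + δ) m, ENNReal.ofReal (1 - p) ≤
      ENNReal.ofReal |((Measure.dirac m) (Iic t)).toReal - ((mu σ p δ) (Iic t)).toReal| := by
    intro t ht
    refine ENNReal.ofReal_le_ofReal ?_
    rw [Measure.dirac_apply' _ measurableSet_Iic, Set.indicator_of_notMem (by simpa using ht.2),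
      ENNReal.toReal_zero, zero_sub, abs_neg]
    refine le_trans ?_ (le_abs_self _)
    have hs : sc σ (mu σ p δ) (Iic t) = (mu σ p δ) (Iic (σ⁻¹ * t)) := sc_Iic' σ hσ _ t
    have a2 : (U δ) (Iic t) = 1 := by
      rw [← compl_Ioi, prob_compl_eq_one_iff measurableSet_Ioi]
      exact U_Ioi h ht.1.le
    rw [mu_self σ p δ h.hp0, Measure.add_apply, Measure.smul_apply, Measure.smul_apply,
      smul_eq_mul, smul_eq_mul, a2, hs, ENNReal.toReal_add, ENNReal.toReal_mul,
      ENNReal.toReal_ofReal h1p.le, ENNReal.toReal_one, mul_one]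
    · linarith [ENNReal.toReal_nonneg (a := ENNReal.ofReal p * (mu σ p δ) (Iic (σ⁻¹ * t)))]
    · exact ENNReal.mul_ne_top ENNReal.ofReal_ne_top ENNReal.one_ne_top
    · exact ENNReal.mul_ne_top ENNReal.ofReal_ne_top (measure_ne_top _ _)
  calc ENNReal.ofReal ((1 - p) * (m - (1 + δ)))
      = ∫⁻ _t in Ioo (1 + δ) m, ENNReal.ofReal (1 - p) := by
        rw [setLIntegral_const, Real.volume_Ioo, ENNReal.ofReal_mul h1p.le]
    _ ≤ ∫⁻ t in Ioo (1 + δ) m, ENNReal.ofReal
          |((Measure.dirac m) (Iic t)).toReal - ((mu σ p δ) (Iic t)).toReal| :=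
        setLIntegral_mono' measurableSet_Ioo hge
    _ ≤ _ := setLIntegral_le_lintegral _ _

theorem lower (h : Par σ p δ) (n : ℕ) :
    ENNReal.ofReal ((1 - p) * ((1 - p) / (1 - p * σ) - (1 + δ)) * (p * σ) ^ n) ≤
      W1 (T n (mu σ p δ)) (mu σ p δ) := by
  have hσ : 0 < σ := by linarith [h.hσ]
  have hpσ : 0 < p * σ := mul_pos h.hp0 hσ
  induction n with
  | zero => simpa using base h
  | succ n ih =>
    refine le_trans ?_ (step h n)
    refine le_trans ?_ (mul_le_mul_right ih _)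
    rw [← ENNReal.ofReal_mul hpσ.le]
    refine ENNReal.ofReal_le_ofReal (le_of_eq ?_)
    ring

/-- parameters exist, for every moment -/
theorem exists_par (q : ℕ) : ∃ σ p δ : ℝ, Par σ p δ ∧ p * σ ^ q < 1 ∧ 1 / 2 < p * σ := by
  obtain ⟨σ, hσ1, hσq⟩ : ∃ σ : ℝ, 1 < σ ∧ σ ^ q < 2 := by
    have h1 : Tendsto (fun x : ℝ => x ^ q) (𝓝[>] 1) (𝓝 1) := by
      have := (continuous_pow q).tendsto (1 : ℝ)
      rw [one_pow] at this
      exact this.mono_left nhdsWithin_le_nhds
    have h2 : ∀ᶠ x in 𝓝[>] (1 : ℝ), x ^ q < 2 := h1.eventually (gt_mem_nhds (by norm_num))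
    have h3 : ∀ᶠ x in 𝓝[>] (1 : ℝ), 1 < x := eventually_mem_nhdsWithin
    obtain ⟨x, hx⟩ := (h3.and h2).exists
    exact ⟨x, hx.1, hx.2⟩
  have hσ0 : 0 < σ := by linarith
  set p : ℝ := (1 / (2 * σ) + 1 / (1 + σ)) / 2 with hp
  have hlt : 1 / (2 * σ) < 1 / (1 + σ) := one_div_lt_one_div_of_lt (by linarith) (by linarith)
  have hp1 : 1 / (2 * σ) < p := by rw [hp]; linarith
  have hp2 : p < 1 / (1 + σ) := by rw [hp]; linarith
  have hp0 : 0 < p := lt_trans (by positivity) hp1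
  have hpa : p * (1 + σ) < 1 := by rwa [lt_div_iff₀ (by linarith)] at hp2
  have hpb : 1 < p * (2 * σ) := by rwa [div_lt_iff₀ (by linarith)] at hp1
  have hpσ1 : p * σ < 1 := by nlinarith
  have hphalf : p < 1 / 2 := by nlinarith
  have hden : 0 < 1 - p * σ := by linarith
  have hm1 : 1 < (1 - p) / (1 - p * σ) := by
    rw [lt_div_iff₀ hden]
    nlinarith
  have hm2 : (1 - p) / (1 - p * σ) < σ := by
    rw [div_lt_iff₀ hden]
    nlinarith
  set m := (1 - p) / (1 - p * σ) with hm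
  obtain ⟨δ, hδ0, hδ⟩ : ∃ δ : ℝ, 0 < δ ∧ δ < min (min (1 / 2) (m - 1)) ((σ - m) / σ) := by
    have : 0 < min (min (1 / 2) (m - 1)) ((σ - m) / σ) := by
      refine lt_min (lt_min (by norm_num) (by linarith)) (div_pos (by linarith) hσ0)
    exact ⟨_, half_pos this, half_lt_self this⟩
  rw [lt_min_iff, lt_min_iff, lt_div_iff₀ hσ0] at hδ
  refine ⟨σ, p, δ, ⟨hσ1, hp0, by linarith, hδ0, by linarith, hpσ1, by linarith, by linarith⟩, ?_, ?_⟩
  · have : 0 < σ ^ q := pow_pos hσ0 q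
    nlinarith
  · linarith

theorem main (q : ℕ) : ∃ μ : Measure ℝ, IsProbabilityMeasure μ ∧ μ ≪ volume ∧
    Integrable (fun x => |x| ^ q) μ ∧
    ∃ ρ c : ℝ, 1 / 2 < ρ ∧ 0 < c ∧ ∀ n : ℕ, ENNReal.ofReal (c * ρ ^ n) ≤ W1 (T n μ) μ := by
  obtain ⟨σ, p, δ, h, hq, hps⟩ := exists_par q
  have hσ : 0 < σ := by linarith [h.hσ]
  have h1p : 0 < 1 - p := by linarith [h.hp1]
  exact ⟨mu σ p δ, mu_prob σ p δ h.hp0 h.hp1 h.hδ, mu_ac σ p δ hσ,
    mu_moment σ p δ hσ h.hp0 h.hp1 h.hδ h.hδ1 q hq, p * σ, _, hps,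
    mul_pos h1p (by linarith [h.h1]), lower h⟩

/-- from the lower bound to the exponential rate -/
theorem rate (a : ℕ → ℝ≥0∞) (ρ c : ℝ) (hρ : 1 / 2 < ρ) (hc : 0 < c)
    (h : ∀ n : ℕ, ENNReal.ofReal (c * ρ ^ n) ≤ a n) :
    ((-Real.log 2 : ℝ) : EReal) < limsup (fun n : ℕ => (a n).log / (n : EReal)) atTop := by
  obtain ⟨ρ', h1, h2⟩ := exists_between hρ
  have hρ' : 0 < ρ' := by linarith
  have hρ0 : 0 < ρ := by linarith
  have hev : ∀ᶠ n : ℕ in atTop, ρ' ^ n ≤ c * ρ ^ n := by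
    have h3 : Tendsto (fun n : ℕ => (ρ' / ρ) ^ n) atTop (𝓝 0) :=
      tendsto_pow_atTop_nhds_zero_of_lt_one (by positivity) (by rw [div_lt_one hρ0]; exact h2)
    filter_upwards [h3.eventually (gt_mem_nhds hc)] with n hn
    rw [div_pow, div_lt_iff₀ (pow_pos hρ0 n)] at hn
    exact hn.le
  have hle : ((Real.log ρ' : ℝ) : EReal) ≤
      limsup (fun n : ℕ => (a n).log / (n : EReal)) atTop := by
    refine le_limsup_of_frequently_le (Eventually.frequently ?_)
    filter_upwards [hev, eventually_gt_atTop 0] with n hn hn0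
    have h4 : ENNReal.ofReal (ρ' ^ n) ≤ a n := (ENNReal.ofReal_le_ofReal hn).trans (h n)
    have h5 : ((Real.log (ρ' ^ n) : ℝ) : EReal) ≤ (a n).log := by
      rw [← ENNReal.log_ofReal_of_pos (pow_pos hρ' n)]
      exact ENNReal.log_monotone h4
    have hn' : (0 : ℝ) < n := by exact_mod_cast hn0
    have h6 : ((Real.log ρ' : ℝ) : EReal) = ((Real.log (ρ' ^ n) : ℝ) : EReal) / (n : EReal) := by
      have : (n : EReal) = ((n : ℝ) : EReal) := rfl
      rw [this, ← EReal.coe_div, Real.log_pow]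
      congr 1
      field_simp
    rw [h6]
    exact EReal.div_le_div_right_of_nonneg (by positivity) h5
  refine lt_of_lt_of_le ?_ hle
  rw [EReal.coe_lt_coe_iff, ← Real.log_inv]
  exact Real.log_lt_log (by norm_num) (by norm_num at h1 ⊢; exact h1)

end Q289.MeanSplit
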